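import Mathlib

namespace Pool.Agent.Results.MP_00b317_lc.NoHull

open Set Filter MeasureTheory Topology

/-- `ψ` is a translation invariant Borel hull operation on the family `I` -/
def InvHull {n : ℕ} (I : Set (Set (Fin n → ℝ))) (ψ : Set (Fin n → ℝ) → Set (Fin n → ℝ)) : Prop :=
  ∀ A ∈ I, ψ A ∈ I ∧ MeasurableSet (ψ A) ∧ A ⊆ ψ A ∧ ∀ x, ψ ((· + x) '' A) = (· + x) '' ψ A

theorem ultra : ¬ MeasurableSet {X : ℕ → Bool | {n | X n} ∈ hyperfilter ℕ} := fun h => by
  obtain ⟨O, h1, h2⟩ := h.baireMeasurableSet.residualEq_isOpen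
  obtain ⟨I, V, k1, k2, k3⟩ : ∃ (I : Finset ℕ) (V : ℕ → Set Bool), (pi I V).Nonempty ∧
      IsOpen (pi (I : Set ℕ) V) ∧ (pi I V ⊆ O ∨ pi I V ⊆ Oᶜ) := by
    rcases O.eq_empty_or_nonempty with rfl | ⟨X, hX⟩
    · exact ⟨∅, fun _ => ∅, by simp, by simp, by simp⟩
    · obtain ⟨I, V, k1, k2⟩ := isOpen_pi_iff.1 h1 X hX
      exact ⟨I, V, ⟨X, fun i hi => (k1 i hi).2⟩, isOpen_set_pi I.finite_toSet fun i hi => (k1 i hi).1,
        .inl k2⟩
  let f : (ℕ → Bool) → ℕ → Bool := fun X n => if n ∈ I then X n else !X n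
  have f1 : Continuous f := continuous_pi fun n => by
    by_cases h : n ∈ I <;> simp only [f, h, if_true, if_false] <;> fun_prop
  have f2 : Function.Involutive f := fun X => funext fun n => by by_cases h : n ∈ I <;> simp [f, h]
  obtain ⟨X, l1, l2, l3⟩ := (dense_of_mem_residual (h2.and (tendsto_residual_of_isOpenMap f1
    (Homeomorph.mk f2.toPerm f1 f1).isOpenMap h2))).inter_open_nonempty _ k2 k1
  have l4 : f X ∈ pi I V := fun i hi => by simpa [f, Finset.mem_coe.1 hi] using l1 i hi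
  have l5 : {n | f X n} ∈ hyperfilter ℕ ↔ {n | X n} ∉ hyperfilter ℕ := by
    rw [← Ultrafilter.compl_mem_iff_notMem]
    refine Filter.eventually_congr (f := (hyperfilter ℕ : Filter ℕ)) (mem_of_superset
      I.finite_toSet.compl_mem_hyperfilter fun n hn => ?_)
    simp [f, show n ∉ I from hn]
  have l6 : {n | X n} ∈ hyperfilter ℕ ↔ X ∈ O := iff_of_eq l2
  have l7 : {n | f X n} ∈ hyperfilter ℕ ↔ f X ∈ O := iff_of_eq l3
  rcases k3 with k3 | k3
  · exact l5.1 (l7.2 (k3 l4)) (l6.2 (k3 l1))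
  · exact k3 l4 (l7.1 (l5.2 fun h => k3 l1 (l6.1 h)))

noncomputable def nm (j : ℕ) (x : ℝ) : ℝ := ‖((2 ^ (j * j) * x : ℝ) : UnitAddCircle)‖

theorem nm_add (j x y) : nm j (x + y) ≤ nm j x + nm j y := by
  simpa [nm, mul_add] using norm_add_le _ _

theorem nm_int (j) (k : ℤ) (x) : nm j (k + x) = nm j x := by
  have : ((2 ^ (j * j) * k : ℝ) : UnitAddCircle) = 0 :=
    (AddCircle.coe_eq_zero_iff _).2 ⟨2 ^ (j * j) * k, by simp⟩
  simp [nm, mul_add, this]

theorem nm_tsum {w : ℕ → ℝ} (h1 : ∀ i, |w i| ≤ (1 / 2) ^ (i * i))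
    (h2 : ∀ i, ∃ k : ℤ, 2 ^ ((i + 1) * (i + 1)) * w i = k) {j} (h3 : w j = 0) :
    nm j (∑' i, w i) ≤ (1 / 2) ^ j := by
  have h4 : Summable w := .of_norm_bounded summable_geometric_two fun i => (h1 i).trans
    (pow_le_pow_of_le_one (by norm_num) (by norm_num) (Nat.le_mul_self i))
  have h5 : ((2 ^ (j * j) * ∑ i ∈ Finset.range j, w i : ℝ) : UnitAddCircle) = 0 := by
    choose k hk using h2
    refine (AddCircle.coe_eq_zero_iff _).2 ⟨∑ i ∈ Finset.range j,
      2 ^ (j * j - (i + 1) * (i + 1)) * k i, ?_⟩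
    simp only [zsmul_eq_mul, mul_one, Int.cast_sum, Finset.mul_sum]
    refine Finset.sum_congr rfl fun i hi => ?_
    push_cast
    rw [← hk, ← mul_assoc, ← pow_add, Nat.sub_add_cancel (Nat.mul_self_le_mul_self
      (Finset.mem_range.1 hi))]
  rw [nm, ← h4.sum_add_tsum_nat_add (j + 1), Finset.sum_range_succ, h3, add_zero, mul_add,
    AddCircle.coe_add, h5, zero_add, ← tsum_mul_left]
  refine QuotientAddGroup.norm_mk_le_norm.trans (tsum_of_norm_bounded (hasSum_geometric_two' _)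
    fun i => ?_)
  rw [norm_mul, Real.norm_of_nonneg (by positivity), ← le_div_iff₀' (by positivity)]
  refine (h1 _).trans (le_of_le_of_eq (pow_le_pow_of_le_one (by norm_num) (by norm_num)
    (show j + 1 + i + j * j ≤ _ by nlinarith)) ?_)
  simp only [pow_add, one_div, inv_pow]
  field_simp

def S (m : ℕ) : AddSubgroup ℝ where
  carrier := {x | ∃ M : ℕ, ∀ j, j.unpair.1 = m → nm j x ≤ M * (1 / 2) ^ j}
  zero_mem' := ⟨0, by simp [nm]⟩
  add_mem' := fun ⟨M, h⟩ ⟨N, h'⟩ => ⟨M + N, fun j hj => (nm_add ..).trans (by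
    rw [Nat.cast_add, add_mul]; exact add_le_add (h j hj) (h' j hj))⟩
  neg_mem' := fun ⟨M, h⟩ => ⟨M, by simpa [nm] using h⟩

def G : AddSubgroup ℝ where
  carrier := {x | ∀ᶠ m in hyperfilter ℕ, x ∈ S m}
  zero_mem' := .of_forall fun _ => zero_mem _
  add_mem' := fun h h' => (h.and h').mono fun _ h => add_mem h.1 h.2
  neg_mem' := fun h => h.mono fun _ => neg_mem

theorem dec (z : ℝ) : ∃ h : (ℕ → Bool) → ℝ, Continuous h ∧ ∀ X,
    ({n | X n} ∉ hyperfilter ℕ → h X ∈ G) ∧ ({n | X n} ∈ hyperfilter ℕ → z - h X ∈ G) := by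
  let p : ℕ → ℝ := fun j => ⌊2 ^ (j * j) * z⌋ / 2 ^ (j * j)
  have h1 : ∀ j, 0 ≤ z - p j ∧ z - p j ≤ (1 / 2) ^ (j * j) := fun j => by
    have := Int.floor_le (2 ^ (j * j) * z)
    have := Int.lt_floor_add_one (2 ^ (j * j) * z)
    simp only [p, one_div, inv_pow]
    generalize (⌊2 ^ (j * j) * z⌋ : ℝ) = k at *
    constructor <;> field_simp <;> linarith
  have h2 : ∀ i, |p (i + 1) - p i| ≤ (1 / 2) ^ (i * i) := fun i => by
    have := h1 i
    have := h1 (i + 1)
    have := pow_le_pow_of_le_one (a := (1 / 2 : ℝ)) (by norm_num) (by norm_num)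
      (Nat.mul_self_le_mul_self (Nat.le_add_right i 1))
    exact abs_le.2 ⟨by linarith, by linarith⟩
  have g : ∀ i : ℕ, (1 / 2 : ℝ) ^ (i * i) ≤ (1 / 2) ^ i := fun i =>
    pow_le_pow_of_le_one (by norm_num) (by norm_num) (Nat.le_mul_self i)
  let w : (ℕ → Bool) → ℕ → ℝ := fun X i => if X i.unpair.1 then p (i + 1) - p i else 0
  have h3 : ∀ X i, |w X i| ≤ (1 / 2) ^ (i * i) := fun X i => by
    simp only [w]
    split_ifs
    exacts [h2 i, by simp]
  have h4 : ∀ X m (k : ℤ), X m = false → k + ∑' i, w X i ∈ S m := fun X m k h => ⟨1, fun j hj => by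
    rw [nm_int, Nat.cast_one, one_mul]
    refine nm_tsum (h3 X) (fun i => ?_) (by simp [w, hj, h])
    simp only [w]
    split_ifs
    · refine ⟨⌊2 ^ ((i + 1) * (i + 1)) * z⌋ - 2 ^ (2 * i + 1) * ⌊2 ^ (i * i) * z⌋, ?_⟩
      simp only [p]
      push_cast
      rw [mul_sub, show (i + 1) * (i + 1) = i * i + (2 * i + 1) by ring]
      field_simp
      ring
    · exact ⟨0, by simp⟩⟩
  have h5 : ∀ X, Summable (w X) := fun X => .of_norm_bounded summable_geometric_two fun i =>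
    (h3 X i).trans (g i)
  refine ⟨fun X => ∑' i, w X i, continuous_tsum (fun i => ?_) summable_geometric_two
    fun i X => (h3 X i).trans (g i), fun X => ⟨fun h => mem_of_superset
      (Ultrafilter.compl_mem_iff_notMem.2 h) fun m hm => by simpa using h4 X m 0 (by simpa using hm),
      fun h => mem_of_superset h fun m hm => ?_⟩⟩
  · exact (continuous_of_discreteTopology (f := fun b : Bool => if b then p (i + 1) - p i else 0)).comp
      (continuous_apply _)
  have h6 : HasSum (fun i => p (i + 1) - p i) (z - p 0) := by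
    rw [hasSum_iff_tendsto_nat_of_summable_norm (.of_nonneg_of_le (fun _ => norm_nonneg _)
      (fun i => (h2 i).trans (g i)) summable_geometric_two)]
    simp only [Finset.sum_range_sub]
    refine Tendsto.sub_const ?_ _
    simpa using (squeeze_zero (fun j => (h1 j).1) (fun j => (h1 j).2.trans (g j))
      (tendsto_pow_atTop_nhds_zero_of_lt_one (by norm_num) (by norm_num))).const_sub z
  have h7 := (h5 X).tsum_add (h5 fun n => !X n)
  rw [show (fun i => w X i + w (fun n => !X n) i) = fun i => p (i + 1) - p i from funext fun i => by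
    cases h : X i.unpair.1 <;> simp [w, h], h6.tsum_eq] at h7
  have : p 0 = ⌊z⌋ := by simp [p]
  have h8 := h4 (fun n => !X n) m ⌊z⌋ (by simpa using hm)
  rwa [show (⌊z⌋ + ∑' i, w (fun n => !X n) i : ℝ) = z - ∑' i, w X i by linarith] at h8

theorem small {n : ℕ} (i : Fin n) (m : ℕ) : IsMeagre {x : Fin n → ℝ | x i ∈ S m} ∧
    volume {x : Fin n → ℝ | x i ∈ S m} = 0 := by
  have h1 : ∀ M : ℕ, IsClosed {x | ∀ j, j.unpair.1 = m → nm j x ≤ M * (1 / 2) ^ j} := fun M => by
    simp only [setOf_forall]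
    exact isClosed_iInter fun j => isClosed_iInter fun _ => isClosed_le
      ((AddCircle.continuous_mk' 1).comp (by fun_prop)).norm continuous_const
  have h2 : IsMeagre (S m : Set ℝ) := by
    refine (isMeagre_iUnion fun M => IsNowhereDense.isMeagre ((h1 M).isNowhereDense_iff.2
      (eq_empty_of_forall_notMem fun x hx => ?_))).mono fun x hx => mem_iUnion.2 hx
    obtain ⟨ε, k1, k2⟩ := Metric.mem_nhds_iff.1 (mem_interior_iff_mem_nhds.1 hx)
    obtain ⟨j, k3⟩ := eventually_atTop.1 ((tendsto_pow_atTop_nhds_zero_of_lt_one (r := 1 / 2)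
      (by norm_num) (by norm_num)).eventually (gt_mem_nhds (lt_min k1
        (show (0 : ℝ) < 1 / (2 * M + 1) by positivity))))
    have k4 := lt_min_iff.1 (k3 _ (Nat.right_le_pair m j))
    set l := m.pair j
    have k5 := k2 (show (⌊2 ^ (l * l) * x⌋ + 1 / 2 : ℝ) / 2 ^ (l * l) ∈ Metric.ball x ε by
      have := Int.floor_le (2 ^ (l * l) * x)
      have := Int.lt_floor_add_one (2 ^ (l * l) * x)
      refine lt_of_le_of_lt (le_trans ?_ (pow_le_pow_of_le_one (by norm_num) (by norm_num)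
        (Nat.le_mul_self l))) k4.1
      rw [Real.dist_eq, abs_le, one_div (2 : ℝ), inv_pow]
      generalize (⌊2 ^ (l * l) * x⌋ : ℝ) = k at *
      constructor <;> field_simp <;> linarith) l (by simp [l])
    rw [nm, mul_div_cancel₀ _ (by positivity), UnitAddCircle.norm_eq, round_intCast_add] at k5
    have k6 := (lt_div_iff₀ (by positivity)).1 k4.2
    have : (0 : ℝ) < (1 / 2) ^ l := by positivity
    norm_num [round_eq] at k5
    nlinarith
  have h3 : IsMeagre {x : Fin n → ℝ | x i ∈ S m} :=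
    h2.preimage_of_isOpenMap (continuous_apply i) (isOpenMap_eval i)
  refine ⟨h3, by_contra fun h => not_isMeagre_of_isOpen isOpen_interior
    ⟨0, mem_interior_iff_mem_nhds.2 (mem_of_superset (Measure.sub_mem_nhds_zero_of_addHaar_pos
      volume _ ?_ (pos_iff_ne_zero.2 h)) ?_)⟩ (h3.mono interior_subset)⟩
  · exact measurable_pi_apply i ((MeasurableSet.iUnion fun M => (h1 M).measurableSet).congr
      (Set.ext fun _ => mem_iUnion))
  · rintro _ ⟨x, hx, y, hy, rfl⟩
    exact (S m).sub_mem hx hy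

theorem main {n : ℕ} (i : Fin n) {I : Set (Set (Fin n → ℝ))} {ψ}
    (h1 : {x : Fin n → ℝ | x i ∈ G} ∈ I) (h2 : univ ∉ I) : ¬ InvHull I ψ := fun h => by
  have hd := dec
  generalize G = H at *
  obtain ⟨k1, k2, k3, k4⟩ := h _ h1
  have k0 : ∀ y : Fin n → ℝ, y i ∈ H → (· + y) '' {x : Fin n → ℝ | x i ∈ H} = {x | x i ∈ H} :=
    fun y hy => Subset.antisymm (image_subset_iff.2 fun x hx => H.add_mem hx hy) fun x hx =>
      ⟨x - y, H.sub_mem hx hy, sub_add_cancel x y⟩
  have k5 : ∀ y : Fin n → ℝ, y i ∈ H → (· + y) '' ψ {x | x i ∈ H} = ψ {x | x i ∈ H} :=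
    fun y hy => by rw [← k4, k0 y hy]
  generalize ψ {x | x i ∈ H} = B at *
  obtain ⟨z, k6⟩ := (ne_univ_iff_exists_notMem B).1 fun h => h2 (h ▸ k1)
  obtain ⟨f, l1, l2⟩ := hd (z i)
  have l3 : Continuous fun X (_ : Fin n) => f X := continuous_pi fun _ => l1
  refine ultra ((l3.measurable k2).compl.congr (Set.ext fun X => ⟨fun h => by_contra fun l3 =>
    h (k3 ((l2 X).1 l3)), fun h l3 => k6 ?_⟩))
  exact (k5 (z - fun _ => f X) ((l2 X).2 h)).le ⟨_, l3, add_sub_cancel _ z⟩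

theorem result (n : ℕ) (hn : 0 < n) : (¬ ∃ ψ, InvHull {A : Set (Fin n → ℝ) | volume A = 0} ψ) ∧
    ¬ ∃ ψ, InvHull {A : Set (Fin n → ℝ) | IsMeagre A} ψ := by
  have h : {x : Fin n → ℝ | x ⟨0, hn⟩ ∈ G} ⊆ ⋃ m, {x | x ⟨0, hn⟩ ∈ S m} := fun x hx =>
    mem_iUnion.2 hx.exists
  exact ⟨fun ⟨_, k⟩ => main _ (measure_mono_null h (measure_iUnion_null fun m => (small _ m).2))
    (NeZero.ne _) k, fun ⟨_, k⟩ => main _ ((isMeagre_iUnion fun m => (small _ m).1).mono h)
      (not_isMeagre_of_isOpen isOpen_univ univ_nonempty) k⟩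

end Pool.Agent.Results.MP_00b317_lc.NoHull
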